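import Pool.Agent.Helper60.T3.GoalsI

/-!
# Project T3 (MP_a41896_nt), packet DADD

`z'(P) = D x(P) / ψ(P)` is additive on the points of an elliptic curve with coefficients killed by the
derivation `D`.
-/

set_option autoImplicit false

namespace Pool.Agent.Helper85.T3.DADD

open WeierstrassCurve
open Pool.Agent.Helper29.BL Pool.Agent.Helper92.Ru Pool.Agent.Helper42.SG
open Pool.Agent.Helper60.T3

variable {k L : Type} [Field k] [Field L] [Algebra k L]

lemma D_two (D : Derivation k L L) : D (2 : L) = 0 := by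
  have := D.map_natCast 2
  simpa using this

lemma D_three (D : Derivation k L L) : D (3 : L) = 0 := by
  have := D.map_natCast 3
  simpa using this

/-- the derivatives of the coordinates of the sum, from the slope -/
lemma core (D : Derivation k L L) (a1 a2 a3 a4 : L) (h1 : D a1 = 0) (h2 : D a2 = 0) (h3 : D a3 = 0)
    (x1 y1 x2 y2 l x3 y3 z1 z2 : L)
    (hx3 : x3 = l ^ 2 + a1 * l - a2 - x1 - x2) (hy3 : y3 = -(l * (x3 - x1) + y1) - a1 * x3 - a3)
    (hl : l * (x1 - x2) = y1 - y2)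
    (hS : 3 * x1 ^ 2 + 2 * a2 * x1 + a4 - a1 * y1 - l * (2 * y1 + a1 * x1 + a3) =
      (x1 - x2) * (x1 - x3))
    (hDx1 : D x1 = (2 * y1 + a1 * x1 + a3) * z1)
    (hDy1 : D y1 = (3 * x1 ^ 2 + 2 * a2 * x1 + a4 - a1 * y1) * z1)
    (hDx2 : D x2 = (2 * y2 + a1 * x2 + a3) * z2)
    (hDl : D l = (x1 - x3) * z1 + (x2 - x3) * z2) :
    D x3 = (2 * y3 + a1 * x3 + a3) * (z1 + z2) ∧
      D y3 = (3 * x3 ^ 2 + 2 * a2 * x3 + a4 - a1 * y3) * (z1 + z2) := by
  have e1 : D x3 = (2 * l + a1) * D l - D x1 - D x2 := by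
    rw [hx3, pow_two]
    simp only [map_sub, map_add, Derivation.leibniz, h1, h2, smul_eq_mul]
    ring
  have e2 : D x3 = (2 * y3 + a1 * x3 + a3) * (z1 + z2) := by
    rw [e1, hDl, hDx1, hDx2, hy3]
    linear_combination (-2 * z2) * hl
  refine ⟨e2, ?_⟩
  have e3 : D y3 = -(D l * (x3 - x1) + l * (D x3 - D x1) + D y1) - a1 * D x3 := by
    conv_lhs => rw [hy3]
    simp only [map_sub, map_add, map_neg, Derivation.leibniz, h1, h3, smul_eq_mul]
    ring
  have e4 : D y3 = -(((x1 - x3) * z1 + (x2 - x3) * z2) * (x3 - x1) +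
      l * ((2 * y3 + a1 * x3 + a3) * (z1 + z2) - (2 * y1 + a1 * x1 + a3) * z1) +
      (3 * x1 ^ 2 + 2 * a2 * x1 + a4 - a1 * y1) * z1) -
      a1 * ((2 * y3 + a1 * x3 + a3) * (z1 + z2)) := by
    rw [e3, e2, hDl, hDx1, hDy1]
  rw [e4, hy3]
  linear_combination (-z1 - (z1 + z2)) * hS - 2 * (z1 + z2) * (x3 - x1) * hx3

/-- The derivatives of the coordinates of a point. -/
lemma pt [CharZero L] (D : Derivation k L L) (a1 a2 a3 a4 a6 : L) (h1 : D a1 = 0) (h2 : D a2 = 0)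
    (h3 : D a3 = 0) (h4 : D a4 = 0) (h6 : D a6 = 0) (x y : L)
    (he : y ^ 2 + a1 * x * y + a3 * y = x ^ 3 + a2 * x ^ 2 + a4 * x + a6)
    (hn : a1 * y - (3 * x ^ 2 + 2 * a2 * x + a4) ≠ 0 ∨ 2 * y + a1 * x + a3 ≠ 0) :
    D x = (2 * y + a1 * x + a3) * (D x / (2 * y + a1 * x + a3)) ∧
      D y = (3 * x ^ 2 + 2 * a2 * x + a4 - a1 * y) * (D x / (2 * y + a1 * x + a3)) := by
  have h := congrArg D he
  have h' : (2 * y + a1 * x + a3) * D y = (3 * x ^ 2 + 2 * a2 * x + a4 - a1 * y) * D x := by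
    rw [show y ^ 2 = y * y from pow_two y, show x ^ 3 = x * (x * x) by ring, pow_two x] at h
    simp only [map_add, Derivation.leibniz, h1, h2, h3, h4, h6, smul_eq_mul] at h
    linear_combination h
  by_cases hψ : 2 * y + a1 * x + a3 = 0
  · have hn' := hn.resolve_right (fun h => h hψ)
    rw [hψ, zero_mul] at h'
    have hx : D x = 0 := by
      have : (a1 * y - (3 * x ^ 2 + 2 * a2 * x + a4)) * D x = 0 := by linear_combination h'
      exact (mul_eq_zero.mp this).resolve_left hn'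
    have hy : D y = 0 := by
      have h5 := congrArg D hψ
      simp only [map_sub, map_add, Derivation.leibniz, h1, h3, smul_eq_mul, D_two, map_zero] at h5
      rw [hx] at h5
      have : (2 : L) * D y = 0 := by linear_combination h5
      exact (mul_eq_zero.mp this).resolve_left two_ne_zero
    rw [hψ, hx, hy]
    simp
  · refine ⟨by field_simp, ?_⟩
    rw [mul_div_assoc', eq_div_iff hψ]
    linear_combination h'

/-- the conclusion at the sum -/
lemma fin' [CharZero L] (D : Derivation k L L) (a1 a2 a3 a4 : L) (h1 : D a1 = 0) (h3 : D a3 = 0)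
    (x y z : L)
    (hn : a1 * y - (3 * x ^ 2 + 2 * a2 * x + a4) ≠ 0 ∨ 2 * y + a1 * x + a3 ≠ 0)
    (hx : D x = (2 * y + a1 * x + a3) * z)
    (hy : D y = (3 * x ^ 2 + 2 * a2 * x + a4 - a1 * y) * z) :
    D x / (2 * y + a1 * x + a3) = z := by
  by_cases hψ : 2 * y + a1 * x + a3 = 0
  · have hn' := hn.resolve_right (fun h => h hψ)
    rw [hψ, zero_mul] at hx
    have h5 := congrArg D hψ
    simp only [map_sub, map_add, Derivation.leibniz, h1, h3, smul_eq_mul, D_two, map_zero] at h5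
    rw [hx] at h5
    have : (2 : L) * D y = 0 := by linear_combination h5
    have hy' : D y = 0 := (mul_eq_zero.mp this).resolve_left two_ne_zero
    have : (a1 * y - (3 * x ^ 2 + 2 * a2 * x + a4)) * z = 0 := by
      linear_combination hy - hy'
    rw [hψ, (mul_eq_zero.mp this).resolve_left hn', div_zero]
  · rw [hx, mul_comm, mul_div_assoc, div_self hψ, mul_one]

theorem t : Pool.Agent.Helper60.T3.S_DADD := by
  intro k L _ _ _ _ _ W _ D P Q
  have : CharZero L := charZero_of_injective_algebraMap (algebraMap k L).injective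
  have h1 : D (WL L W).a₁ = 0 := by simp [WL]
  have h2 : D (WL L W).a₂ = 0 := by simp [WL]
  have h3 : D (WL L W).a₃ = 0 := by simp [WL]
  have h4 : D (WL L W).a₄ = 0 := by simp [WL]
  have h6 : D (WL L W).a₆ = 0 := by simp [WL]
  have hz0 : zd D (0 : (WL L W).Point) = 0 := by
    unfold zd
    rw [xc_zero, map_zero, zero_div]
  generalize WL L W = V at *
  rcases P with _ | ⟨x1, y1, n1⟩
  · change zd D ((0 : V.Point) + Q) = zd D (0 : V.Point) + zd D Q
    rw [zero_add, hz0, zero_add]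
  rcases Q with _ | ⟨x2, y2, n2⟩
  · change zd D (_ + (0 : V.Point)) = _ + zd D (0 : V.Point)
    rw [add_zero, hz0, add_zero]
  have n1' := (Affine.nonsingular_iff' _ _).mp n1
  have n2' := (Affine.nonsingular_iff' _ _).mp n2
  have q1 := (Affine.equation_iff _ _).mp n1'.1
  have q2 := (Affine.equation_iff _ _).mp n2'.1
  obtain ⟨p1, p1'⟩ := pt D _ _ _ _ _ h1 h2 h3 h4 h6 x1 y1 q1 n1'.2
  obtain ⟨p2, p2'⟩ := pt D _ _ _ _ _ h1 h2 h3 h4 h6 x2 y2 q2 n2'.2
  have e1 : zd D (Affine.Point.some x1 y1 n1) = D x1 / (2 * y1 + V.a₁ * x1 + V.a₃) := rfl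
  have e2 : zd D (Affine.Point.some x2 y2 n2) = D x2 / (2 * y2 + V.a₁ * x2 + V.a₃) := rfl
  by_cases hxy : x1 = x2 ∧ y1 = V.negY x2 y2
  · rw [Affine.Point.add_of_Y_eq hxy.1 hxy.2, hz0, e1, e2]
    obtain ⟨hx, hy⟩ := hxy
    subst hx
    rw [Affine.negY] at hy
    have : 2 * y1 + V.a₁ * x1 + V.a₃ = -(2 * y2 + V.a₁ * x1 + V.a₃) := by
      rw [hy]; ring
    rw [this, div_neg]
    ring
  rw [Affine.Point.add_some hxy, e1, e2]
  set l := V.slope x1 x2 y1 y2 with hl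
  have n3 := Affine.nonsingular_add n1 n2 hxy
  have n3' := (Affine.nonsingular_iff' _ _).mp n3
  have e3 : zd D (Affine.Point.some _ _ n3) = D (V.addX x1 x2 l) /
      (2 * (V.addY x1 x2 y1 l) + V.a₁ * (V.addX x1 x2 l) + V.a₃) := rfl
  change zd D (Affine.Point.some _ _ n3) = _
  rw [e3]
  set z1 := D x1 / (2 * y1 + V.a₁ * x1 + V.a₃) with hz1
  set z2 := D x2 / (2 * y2 + V.a₁ * x2 + V.a₃) with hz2
  have hx3 : V.addX x1 x2 l = l ^ 2 + V.a₁ * l - V.a₂ - x1 - x2 := rfl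
  have hy3 : V.addY x1 x2 y1 l = -(l * (V.addX x1 x2 l - x1) + y1) - V.a₁ * V.addX x1 x2 l - V.a₃ := rfl
  rw [← hl] at n3'
  have key : ∀ (hl' : l * (x1 - x2) = y1 - y2)
    (hS : 3 * x1 ^ 2 + 2 * V.a₂ * x1 + V.a₄ - V.a₁ * y1 - l * (2 * y1 + V.a₁ * x1 + V.a₃) =
      (x1 - x2) * (x1 - V.addX x1 x2 l))
    (hDl : D l = (x1 - V.addX x1 x2 l) * z1 + (x2 - V.addX x1 x2 l) * z2),
      D (V.addX x1 x2 l) /
      (2 * (V.addY x1 x2 y1 l) + V.a₁ * (V.addX x1 x2 l) + V.a₃) = z1 + z2 := by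
    intro hl' hS hDl
    obtain ⟨r1, r2⟩ := core D V.a₁ V.a₂ V.a₃ V.a₄ h1 h2 h3 x1 y1 x2 y2 l _ _ z1 z2 hx3 hy3 hl' hS
      p1 p1' p2 hDl
    exact fin' D _ _ _ _ h1 h3 _ _ _ n3'.2 r1 r2
  by_cases hx : x1 = x2
  · have hy : y1 ≠ V.negY x2 y2 := fun h => hxy ⟨hx, h⟩
    obtain ⟨rfl, rfl⟩ := And.intro hx (Affine.Y_eq_of_Y_ne n1.1 n2.1 hx hy)
    have hψ : 2 * y1 + V.a₁ * x1 + V.a₃ ≠ 0 := by
      intro h
      apply hy
      rw [Affine.negY]
      linear_combination h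
    have hlN : l * (2 * y1 + V.a₁ * x1 + V.a₃) =
        3 * x1 ^ 2 + 2 * V.a₂ * x1 + V.a₄ - V.a₁ * y1 := by
      rw [hl, Affine.slope_of_Y_ne rfl hy, Affine.negY]
      have : y1 - (-y1 - V.a₁ * x1 - V.a₃) = 2 * y1 + V.a₁ * x1 + V.a₃ := by ring
      rw [this, div_mul_cancel₀ _ hψ]
    refine key (by ring) (by rw [hlN]; ring) ?_
    have h5 := congrArg D hlN
    rw [pow_two] at h5
    simp only [map_sub, map_add, Derivation.leibniz, h1, h2, h3, h4, smul_eq_mul, D_two, D_three] at h5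
    apply mul_left_cancel₀ hψ
    rw [hx3]
    have hzz : z2 = z1 := rfl
    rw [hzz]
    rw [← hlN] at p1'
    linear_combination h5 + (-2 * l - V.a₁) * p1' + (-l * V.a₁ + 6 * x1 + 2 * V.a₂) * p1
  · have hd : x1 - x2 ≠ 0 := sub_ne_zero.mpr hx
    have hl' : l * (x1 - x2) = y1 - y2 := by
      rw [hl, Affine.slope_of_X_ne hx, div_mul_cancel₀ _ hd]
    have hy2 : y2 = y1 - l * (x1 - x2) := by linear_combination hl'
    have hS : 3 * x1 ^ 2 + 2 * V.a₂ * x1 + V.a₄ - V.a₁ * y1 - l * (2 * y1 + V.a₁ * x1 + V.a₃) =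
        (x1 - x2) * (x1 - V.addX x1 x2 l) := by
      apply mul_left_cancel₀ hd
      rw [hx3]
      rw [hy2] at q2
      linear_combination q2 - q1
    have hS2 : 3 * x2 ^ 2 + 2 * V.a₂ * x2 + V.a₄ - V.a₁ * y2 - l * (2 * y2 + V.a₁ * x2 + V.a₃) =
        (x2 - x1) * (x2 - V.addX x1 x2 l) := by
      rw [hy2]
      linear_combination hS + 2 * (x2 - x1) * hx3
    refine key hl' hS ?_
    have h5 := congrArg D hl'
    simp only [map_sub, Derivation.leibniz, smul_eq_mul] at h5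
    apply mul_left_cancel₀ hd
    linear_combination h5 + z1 * hS - z2 * hS2 + p1' - p2' - l * (p1 - p2)

end Pool.Agent.Helper85.T3.DADD
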